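import Pool.Agent.Helper76.CV.Goals

/-!
# Packet CV-LOQ
-/

namespace Pool.Agent.Helper59.CV.LOQ

open Pool.Agent.Helper76.CV

lemma norm_P {r : ℕ} (P : E (r + 3) →L[ℝ] E (r + 3)) (sym : ∀ u v, inner ℝ (P u) v = inner ℝ u (P v))
    (idem : ∀ u, P (P u) = P u) (η : E (r + 3)) : ‖P η‖ ≤ ‖η‖ := by
  have h1 : ‖P η‖ ^ 2 = inner ℝ η (P η) := by
    rw [← real_inner_self_eq_norm_sq, sym, idem]
  have h2 : inner ℝ η (P η) ≤ ‖η‖ * ‖P η‖ := real_inner_le_norm _ _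
  by_contra h
  push Not at h
  have h3 : 0 ≤ ‖η‖ := norm_nonneg _
  nlinarith

theorem t (hL : LBQ) (hS : SC2) : LOQ := by
  intro r P y a0 a1 a2 η c d c2 v σ σ1 τ h
  obtain ⟨f1, hD⟩ := hL r P y a0 a1 a2 c d c2 v σ σ1 h
  have hs := hS _ _ _ _ _ _ _ _ _ hD
  have hneg := hD.neg
  have hR0 := hD.R0
  have hcas := hD.cas
  generalize hR : √(‖y - (σ / v) • (P y - a0)‖ ^ 2 + ((d + σ / v * inner ℝ (P y - a0) a1) / wr y) ^ 2) = R at *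
  have hv : 0 < v := by have := h.v1; linarith
  have hv2 := h.v2
  have hσ := h.σ0
  have hσ1 := h.σ10
  have hP := norm_P P h.sym h.idem η
  have hη : 0 ≤ ‖η‖ := norm_nonneg _
  have hPη : 0 ≤ ‖P η‖ := norm_nonneg _
  have hPsq : ‖P η‖ ^ 2 ≤ ‖η‖ ^ 2 := by nlinarith
  have hξ : ‖P y - a0‖ ≤ v := by
    have h1 := h.v0
    have h2 : 0 ≤ ‖P y - a0‖ := norm_nonneg _
    by_contra h3
    push Not at h3
    nlinarith
  set ξ := P y - a0 with hξd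
  set w := wr y with hw
  set s := σ / v with hsd
  have hs0 : 0 ≤ s := div_nonneg hσ hv.le
  have hsv : s * v = σ := by rw [hsd]; field_simp
  have hsR : 1001 / 1000 * s ≤ 85 / 2 * R := by
    rw [← hsv] at hs
    by_contra h1
    push Not at h1
    nlinarith
  have hR2 : 1 / 2 ≤ R := by
    rcases hcas with h1 | h1 | h1
    · linarith [h1.2]
    · by_contra h2
      push Not at h2
      nlinarith [h1.2]
    · by_contra h2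
      push Not at h2
      nlinarith [h1.2.1]
  have hmain : -SQ P ξ a1 a2 v σ σ1 c2 τ η ≤
      -‖η‖ ^ 2 - c2 * τ ^ 2 + s * ‖P η - τ • a1‖ ^ 2 - s * inner ℝ ξ a2 * τ ^ 2 := by
    unfold SQ
    have h1 : 0 ≤ σ1 * (inner ℝ ξ (P η - τ • a1) / v) ^ 2 := by positivity
    have h2 : 0 ≤ s * (inner ℝ ξ (P η - τ • a1) / v) ^ 2 := by positivity
    have h3 : σ / v * (‖P η - τ • a1‖ ^ 2 - (inner ℝ ξ (P η - τ • a1) / v) ^ 2)
        = s * ‖P η - τ • a1‖ ^ 2 - s * (inner ℝ ξ (P η - τ • a1) / v) ^ 2 := by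
      rw [hsd]; ring
    rw [h3]
    have h4 : σ / v * inner ℝ ξ a2 * τ ^ 2 = s * inner ℝ ξ a2 * τ ^ 2 := by rw [hsd]
    rw [h4]
    linarith
  refine hmain.trans ?_
  have hτ : 0 ≤ τ ^ 2 := sq_nonneg _
  have hη2 : 0 ≤ ‖η‖ ^ 2 := sq_nonneg _
  rcases h.cas with ⟨⟨-, -, -, hc2⟩, ha1, ha2, hw1⟩ | ⟨-, ha1, ha2, -, -⟩
  · have h1 : ‖P η - τ • a1‖ ≤ ‖η‖ + |τ| * (1 / 10 ^ 6) := by
      refine (norm_sub_le _ _).trans ?_
      rw [norm_smul, Real.norm_eq_abs]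
      have := mul_le_mul_of_nonneg_left ha1 (abs_nonneg τ)
      linarith
    have h2 : ‖P η - τ • a1‖ ^ 2 ≤ (1 + 1 / 10 ^ 6) * ‖η‖ ^ 2 + 2 / 10 ^ 6 * τ ^ 2 := by
      have h3 : ‖P η - τ • a1‖ ^ 2 ≤ (‖η‖ + |τ| * (1 / 10 ^ 6)) ^ 2 := by
        have := norm_nonneg (P η - τ • a1)
        gcongr
      have h4 : (‖η‖ + |τ| * (1 / 10 ^ 6)) ^ 2
          = ‖η‖ ^ 2 + 1 / 10 ^ 6 * (2 * ‖η‖ * |τ|) + (1 / 10 ^ 6) ^ 2 * τ ^ 2 := by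
        rw [← sq_abs τ]; ring
      have h5 : 2 * ‖η‖ * |τ| ≤ ‖η‖ ^ 2 + τ ^ 2 := by
        rw [← sq_abs τ]
        nlinarith [sq_nonneg (‖η‖ - |τ|)]
      have h6 : 1 / 10 ^ 6 * (2 * ‖η‖ * |τ|) ≤ 1 / 10 ^ 6 * (‖η‖ ^ 2 + τ ^ 2) :=
        mul_le_mul_of_nonneg_left h5 (by norm_num)
      linarith
    have h7 : -(inner ℝ ξ a2) ≤ v * (1 / 10 ^ 6) := by
      have h8 : |inner ℝ ξ a2| ≤ ‖ξ‖ * ‖a2‖ := abs_real_inner_le_norm _ _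
      have h9 := neg_abs_le (inner ℝ ξ a2 : ℝ)
      have h10 : ‖ξ‖ * ‖a2‖ ≤ v * (1 / 10 ^ 6) := mul_le_mul hξ ha2 (norm_nonneg _) hv.le
      linarith
    have h8 : s * ‖P η - τ • a1‖ ^ 2 ≤ s * ((1 + 1 / 10 ^ 6) * ‖η‖ ^ 2 + 2 / 10 ^ 6 * τ ^ 2) :=
      mul_le_mul_of_nonneg_left h2 hs0
    have h9 : -(s * inner ℝ ξ a2 * τ ^ 2) ≤ σ * (1 / 10 ^ 6) * τ ^ 2 := by
      have h10 : s * -(inner ℝ ξ a2) ≤ s * (v * (1 / 10 ^ 6)) := mul_le_mul_of_nonneg_left h7 hs0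
      have h11 : s * (v * (1 / 10 ^ 6)) = σ * (1 / 10 ^ 6) := by rw [← hsv]; ring
      rw [h11] at h10
      have := mul_le_mul_of_nonneg_right h10 hτ
      linarith
    have h10 : -c2 * τ ^ 2 ≤ 1 / 10 ^ 6 * τ ^ 2 := by
      have := neg_abs_le c2
      have h11 : -c2 ≤ 1 / 10 ^ 6 := by linarith
      exact mul_le_mul_of_nonneg_right h11 hτ
    have hσR : σ ≤ 7 * R := by
      rw [← hsv]
      nlinarith
    have h12 : τ ^ 2 ≤ 4 * (w * τ) ^ 2 := by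
      have h13 : 1 / 4 ≤ w ^ 2 := by nlinarith
      have := mul_le_mul_of_nonneg_right h13 hτ
      have h14 : (w * τ) ^ 2 = w ^ 2 * τ ^ 2 := by ring
      rw [h14]
      linarith
    have h15 : s ≤ 4250 / 100 * R := by nlinarith
    have h16 : (1 + 1 / 10 ^ 6) * s ≤ 426 / 10 * R := by nlinarith
    have h17 : s * ((1 + 1 / 10 ^ 6) * ‖η‖ ^ 2) ≤ 426 / 10 * R * ‖η‖ ^ 2 := by
      have := mul_le_mul_of_nonneg_right h16 hη2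
      linarith
    have h18 : s * (2 / 10 ^ 6) + σ * (1 / 10 ^ 6) + 1 / 10 ^ 6 ≤ R := by nlinarith
    have h19 : (s * (2 / 10 ^ 6) + σ * (1 / 10 ^ 6) + 1 / 10 ^ 6) * τ ^ 2 ≤ R * τ ^ 2 :=
      mul_le_mul_of_nonneg_right h18 hτ
    have h20 : R * τ ^ 2 ≤ R * (4 * (w * τ) ^ 2) := mul_le_mul_of_nonneg_left h12 hR0.le
    have h21 : 0 ≤ R * (w * τ) ^ 2 := by positivity
    linarith
  · subst ha1
    subst ha2
    rw [smul_zero, sub_zero, inner_zero_right]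
    have h1 : s * ‖P η‖ ^ 2 ≤ s * ‖η‖ ^ 2 := mul_le_mul_of_nonneg_left hPsq hs0
    have h2 : s ≤ 426 / 10 * R := by nlinarith
    have h3 : s * ‖η‖ ^ 2 ≤ 426 / 10 * R * ‖η‖ ^ 2 := mul_le_mul_of_nonneg_right h2 hη2
    have h4 : -c2 * τ ^ 2 ≤ 35 * R * w ^ 2 * τ ^ 2 := mul_le_mul_of_nonneg_right hneg hτ
    have h5 : 0 ≤ R * (w ^ 2 * τ ^ 2) := by positivity
    have h6 : (w * τ) ^ 2 = w ^ 2 * τ ^ 2 := by ring
    rw [h6]
    linarith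

end Pool.Agent.Helper59.CV.LOQ
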